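import Mathlib

/-!
# Every compact abelian group is the kernel of the finite-dimensional representations of a
locally compact group
-/

set_option autoImplicit false

open scoped Topology

namespace Pool.Agent.Results.MP_3f481b_al.EveryCompactAbelian

universe u

/-- `KO(G)`: the intersection of the kernels of all continuous homomorphisms
`G → GL_n(ℂ)`, `n ≥ 1`. -/
def KO (G : Type u) [Group G] [TopologicalSpace G] : Subgroup G :=
  ⨅ (n : ℕ) (_ : 1 ≤ n) (ρ : G →* GL (Fin n) ℂ) (_ : Continuous ρ), ρ.ker

section linear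

variable {W : Type*} [AddCommGroup W] [Module ℂ W] [FiniteDimensional ℂ W]

/-- No nonzero finite-dimensional space carries infinitely many pairwise commuting pairs of
operators `X i, Y i` with `X i Y i = l Y i X i`, `l ≠ 1`. -/
theorem no_pairs (X Y : ℕ → Module.End ℂ W) (l : ℂ) (hl : l ≠ 1)
    (hXX : ∀ i j, i ≠ j → X i * X j = X j * X i)
    (hXY : ∀ i j, i ≠ j → X i * Y j = Y j * X i)
    (hYinj : ∀ i, Function.Injective (Y i)) (hXinj : ∀ i, Function.Injective (X i)) (n : ℕ) :
    ∀ (E : Submodule ℂ W) (I : Set ℕ), Module.finrank ℂ E = n → E ≠ ⊥ → I.Infinite →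
      (∀ i ∈ I, ∀ v ∈ E, X i v ∈ E) → (∀ i ∈ I, ∀ v ∈ E, Y i v ∈ E) →
      (∀ i ∈ I, ∀ v ∈ E, X i (Y i v) = l • Y i (X i v)) → False := by
  induction n using Nat.strong_induction_on with
  | _ n ih =>
    intro E I hn hE hI hXE hYE hrel
    obtain ⟨i, hi⟩ := hI.nonempty
    -- an eigenvector of `X i` in `E`
    let Xi : Module.End ℂ E := (X i).restrict (hXE i hi)
    have : Nontrivial E := (Submodule.nontrivial_iff_ne_bot).2 hE
    obtain ⟨μ, hμ⟩ := Module.End.exists_eigenvalue Xi
    obtain ⟨v, hv, hv0⟩ := hμ.exists_hasEigenvector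
    have hXv : X i (v : W) = μ • (v : W) := by
      have := congrArg Subtype.val (Module.End.mem_eigenspace_iff.1 hv)
      simpa [Xi] using this
    have hvW : (v : W) ≠ 0 := by
      intro h; exact hv0 (Subtype.ext h)
    have hμ0 : μ ≠ 0 := by
      rintro rfl
      rw [zero_smul] at hXv
      apply hvW
      apply hXinj i
      rw [hXv, map_zero]
    -- the smaller space
    let E' : Submodule ℂ W := E ⊓ LinearMap.ker (X i - μ • (1 : Module.End ℂ W))
    have hE'mem : ∀ w, w ∈ E' ↔ w ∈ E ∧ X i w = μ • w := by
      intro w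
      simp only [E', Submodule.mem_inf, LinearMap.mem_ker, LinearMap.sub_apply,
        LinearMap.smul_apply, Module.End.one_apply, sub_eq_zero]
    have hle : E' ≤ E := inf_le_left
    have hlt : E' < E := by
      refine lt_of_le_of_ne hle ?_
      intro heq
      have hYv : Y i (v : W) ∈ E' := by
        rw [heq]; exact hYE i hi _ v.2
      have h1 := ((hE'mem _).1 hYv).2
      rw [hrel i hi _ v.2, hXv, map_smul, smul_smul] at h1
      have h2 : (l * μ - μ) • Y i (v : W) = 0 := by rw [sub_smul, h1, sub_self]
      rcases smul_eq_zero.1 h2 with h3 | h3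
      · have h4 : (l - 1) * μ = 0 := by linear_combination h3
        rcases mul_eq_zero.1 h4 with h5 | h5
        · exact hl (sub_eq_zero.1 h5)
        · exact hμ0 h5
      · apply hvW
        apply hYinj i
        rw [h3, map_zero]
    have hfr : Module.finrank ℂ E' < n := by
      rw [← hn]
      exact Submodule.finrank_lt_finrank_of_lt hlt
    have hE'0 : E' ≠ ⊥ := by
      rw [Submodule.ne_bot_iff]
      exact ⟨v, (hE'mem _).2 ⟨v.2, hXv⟩, hvW⟩
    refine ih _ hfr E' (I \ {i}) rfl hE'0 (hI.sdiff (Set.finite_singleton i)) ?_ ?_ ?_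
    · rintro j ⟨hj, hji⟩ w hw
      rw [hE'mem] at hw ⊢
      refine ⟨hXE j hj w hw.1, ?_⟩
      have := congrArg (fun f : Module.End ℂ W => f w) (hXX i j (Ne.symm hji))
      simp only [Module.End.mul_apply] at this
      rw [this, hw.2, map_smul]
    · rintro j ⟨hj, hji⟩ w hw
      rw [hE'mem] at hw ⊢
      refine ⟨hYE j hj w hw.1, ?_⟩
      have := congrArg (fun f : Module.End ℂ W => f w) (hXY i j (Ne.symm hji))
      simp only [Module.End.mul_apply] at this
      rw [this, hw.2, map_smul]
    · rintro j ⟨hj, _⟩ w hw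
      exact hrel j hj w (hle hw)

/-- If `1` is the only eigenvalue of `Z` and all the orbits `Z ^ k v` lie in sets on which every
linear functional is bounded, then `Z = 1`. -/
theorem eq_one_of_bounded (Z : Module.End ℂ W) (hZ : ∀ l : ℂ, Z.HasEigenvalue l → l = 1)
    (hb : ∀ v : W, ∀ φ : W →ₗ[ℂ] ℂ, ∃ C : ℝ, ∀ k : ℕ, ‖φ ((Z ^ k) v)‖ ≤ C) : Z = 1 := by
  by_contra hne
  set N := Z - 1 with hN
  have hN0 : N ≠ 0 := sub_ne_zero.2 hne
  have hmax : ∀ μ : ℂ, μ ≠ 1 → Z.maxGenEigenspace μ = ⊥ := by
    intro μ hμ
    by_contra hcon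
    apply hμ
    apply hZ
    have h2 : Z.HasUnifEigenvalue μ ⊤ := hcon
    exact h2.lt (by simp)
  have htop : Z.maxGenEigenspace 1 = ⊤ := by
    rw [eq_top_iff, ← Module.End.iSup_maxGenEigenspace_eq_top Z]
    apply iSup_le
    intro μ
    by_cases h : μ = 1
    · rw [h]
    · rw [hmax μ h]; exact bot_le
  have hnil : ∃ k : ℕ, N ^ k = 0 := by
    refine ⟨Module.finrank ℂ W, ?_⟩
    ext v
    have hv : v ∈ Z.maxGenEigenspace 1 := by rw [htop]; exact Submodule.mem_top
    rw [Module.End.maxGenEigenspace_eq_genEigenspace_finrank, Module.End.mem_genEigenspace_nat,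
      one_smul, LinearMap.mem_ker] at hv
    rw [hN, hv, LinearMap.zero_apply]
  classical
  set k := Nat.find hnil with hk
  have hk0 : N ^ k = 0 := Nat.find_spec hnil
  have hk2 : 2 ≤ k := by
    by_contra hlt
    have hk1 : k = 0 ∨ k = 1 := by omega
    rcases hk1 with h | h
    · rw [h, pow_zero] at hk0
      apply hN0
      rw [← mul_one N, hk0, mul_zero]
    · rw [h, pow_one] at hk0
      exact hN0 hk0
  have hkm : N ^ (k - 1) ≠ 0 := Nat.find_min hnil (by omega)
  obtain ⟨v, hv⟩ : ∃ v, (N ^ (k - 1)) v ≠ 0 := by
    by_contra hcon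
    push Not at hcon
    exact hkm (LinearMap.ext hcon)
  set u := (N ^ (k - 2)) v with hu
  set w := (N ^ (k - 1)) v with hw
  have hNu : N u = w := by
    rw [hu, hw, ← Module.End.mul_apply, ← pow_succ']
    congr 2
    omega
  have hNw : N w = 0 := by
    rw [hw, ← Module.End.mul_apply, ← pow_succ']
    have : k - 1 + 1 = k := by omega
    rw [this, hk0, LinearMap.zero_apply]
  have hZu : ∀ n : ℕ, (Z ^ n) u = u + (n : ℂ) • w := by
    have hZ1 : Z = N + 1 := by rw [hN, sub_add_cancel]
    intro n
    induction n with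
    | zero => simp
    | succ n ih =>
      rw [pow_succ', Module.End.mul_apply, ih, hZ1, LinearMap.add_apply, map_add, map_smul, hNu, hNw,
        Module.End.one_apply, smul_zero, Nat.cast_succ, add_smul, one_smul]
      abel
  obtain ⟨φ, hφ⟩ : ∃ φ : W →ₗ[ℂ] ℂ, φ w ≠ 0 := by
    by_contra hcon
    push Not at hcon
    exact hv ((Module.forall_dual_apply_eq_zero_iff ℂ w).1 hcon)
  obtain ⟨C, hC⟩ := hb u φ
  have hpos : 0 < ‖φ w‖ := norm_pos_iff.2 hφ
  obtain ⟨n, hn⟩ := exists_nat_gt ((C + ‖φ u‖) / ‖φ w‖)
  have h1 := hC n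
  rw [hZu, map_add, map_smul] at h1
  have h2 : ‖(n : ℂ) • φ w‖ ≤ C + ‖φ u‖ := by
    calc ‖(n : ℂ) • φ w‖ = ‖(φ u + (n : ℂ) • φ w) - φ u‖ := by rw [add_sub_cancel_left]
      _ ≤ ‖φ u + (n : ℂ) • φ w‖ + ‖φ u‖ := norm_sub_le _ _
      _ ≤ C + ‖φ u‖ := by linarith
  rw [norm_smul, Complex.norm_natCast] at h2
  rw [div_lt_iff₀ hpos] at hn
  linarith

end linear

section group

variable (B : Type u) [AddCommGroup B]

/-- The discrete group `⊕_ℕ (B × ℤ)`. -/
abbrev V : Type u := ℕ →₀ (B × ℤ)

variable {B}

/-- The bilinear map `V × V → B`. -/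
noncomputable def beta (x y : V B) : B := x.sum fun n p => (y n).2 • p.1

theorem beta_add_left (x x' y : V B) : beta (x + x') y = beta x y + beta x' y := by
  unfold beta
  apply Finsupp.sum_add_index'
  · intro n; simp
  · intro n p q; simp

theorem beta_add_right (x y y' : V B) : beta x (y + y') = beta x y + beta x y' := by
  unfold beta
  rw [← Finsupp.sum_add]
  congr 1
  funext n p
  rw [Finsupp.add_apply, Prod.snd_add, add_smul]

theorem beta_zero_left (y : V B) : beta 0 y = 0 := Finsupp.sum_zero_index

theorem beta_zero_right (x : V B) : beta x 0 = 0 := by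
  simp [beta, Finsupp.sum]

theorem beta_single_single (i j : ℕ) (p q : B × ℤ) :
    beta (Finsupp.single i p) (Finsupp.single j q) = if i = j then q.2 • p.1 else 0 := by
  unfold beta
  rw [Finsupp.sum_single_index (by simp)]
  by_cases h : i = j
  · subst h; simp
  · rw [Finsupp.single_eq_of_ne h]
    simp [h]

variable (B) in
/-- The locally compact group: the central extension of `V B` (discrete) by `B` with the cocycle
`beta`. -/
@[ext] structure G where
  /-- the central coordinate -/
  b : B
  /-- the discrete coordinate -/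
  v : V B

namespace G

noncomputable instance : Mul (G B) := ⟨fun x y => ⟨x.b + y.b + beta x.v y.v, x.v + y.v⟩⟩
noncomputable instance : One (G B) := ⟨⟨0, 0⟩⟩
noncomputable instance : Inv (G B) := ⟨fun x => ⟨-x.b + beta x.v x.v, -x.v⟩⟩

@[simp] theorem mul_b (x y : G B) : (x * y).b = x.b + y.b + beta x.v y.v := rfl
@[simp] theorem mul_v (x y : G B) : (x * y).v = x.v + y.v := rfl
@[simp] theorem one_b : (1 : G B).b = 0 := rfl
@[simp] theorem one_v : (1 : G B).v = 0 := rfl
@[simp] theorem inv_b (x : G B) : (x⁻¹).b = -x.b + beta x.v x.v := rfl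
@[simp] theorem inv_v (x : G B) : (x⁻¹).v = -x.v := rfl

theorem beta_neg_left (x y : V B) : beta (-x) y = - beta x y := by
  rw [eq_neg_iff_add_eq_zero, ← beta_add_left, neg_add_cancel, beta_zero_left]

noncomputable instance : Group (G B) :=
  Group.ofLeftAxioms
    (by
      intro x y z
      ext1
      · simp only [mul_b, mul_v, beta_add_left, beta_add_right]
        abel
      · simp only [mul_v]
        rw [add_assoc])
    (by
      intro x
      ext1
      · simp [beta_zero_left]
      · simp)
    (by
      intro x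
      ext1
      · simp only [mul_b, inv_b, inv_v, beta_neg_left, one_b]
        abel
      · simp)

/-- The central embedding. -/
noncomputable def ctr : Multiplicative B →* G B where
  toFun b := ⟨b.toAdd, 0⟩
  map_one' := rfl
  map_mul' x y := by
    ext1
    · simp [beta_zero_left]
    · simp

/-- The projection to the discrete quotient. -/
noncomputable def proj : G B →* Multiplicative (V B) where
  toFun x := Multiplicative.ofAdd x.v
  map_one' := rfl
  map_mul' _ _ := rfl

/-- first family -/
noncomputable def X (b : B) (i : ℕ) : G B := ⟨0, Finsupp.single i (b, 0)⟩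

/-- second family -/
noncomputable def Y (i : ℕ) : G B := ⟨0, Finsupp.single i (0, 1)⟩

theorem X_comm (b : B) (i j : ℕ) : X b i * X b j = X b j * X b i := by
  ext1
  · simp [X, beta_single_single]
  · simp [X, add_comm]

theorem XY_comm (b : B) (i j : ℕ) (h : i ≠ j) : X b i * Y j = Y j * X b i := by
  ext1
  · simp [X, Y, beta_single_single, h]
  · simp [X, Y, add_comm]

theorem XY_rel (b : B) (i : ℕ) : X b i * Y i = ctr (Multiplicative.ofAdd b) * (Y i * X b i) := by
  ext1
  · simp [X, Y, ctr, beta_single_single, beta_zero_left]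
  · simp [X, Y, ctr, add_comm]

theorem ctr_comm (b : Multiplicative B) (x : G B) : ctr b * x = x * ctr b := by
  ext1
  · simp [ctr, beta_zero_left, beta_zero_right, add_comm]
  · simp [ctr]

variable [TopologicalSpace B]

/-- The discrete topology on `V B`. -/
local instance topV : TopologicalSpace (V B) := ⊥
local instance discV : DiscreteTopology (V B) := ⟨rfl⟩

/-- The underlying pair. -/
def toProd (x : G B) : B × V B := (x.b, x.v)

noncomputable instance : TopologicalSpace (G B) := TopologicalSpace.induced toProd inferInstance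

/-- The homeomorphism with the product. -/
noncomputable def homeo : G B ≃ₜ B × V B where
  toFun := toProd
  invFun p := ⟨p.1, p.2⟩
  left_inv _ := rfl
  right_inv _ := rfl
  continuous_toFun := continuous_induced_dom
  continuous_invFun := continuous_induced_rng.2 continuous_id

theorem continuous_b : Continuous (fun x : G B => x.b) :=
  continuous_fst.comp homeo.continuous

theorem continuous_v : Continuous (fun x : G B => x.v) :=
  continuous_snd.comp homeo.continuous

theorem continuous_mk {Z : Type*} [TopologicalSpace Z] {f : Z → B} {g : Z → V B}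
    (hf : Continuous f) (hg : Continuous g) : Continuous (fun z => (⟨f z, g z⟩ : G B)) :=
  homeo.symm.continuous.comp (hf.prodMk hg)

instance [IsTopologicalAddGroup B] : IsTopologicalGroup (G B) where
  continuous_mul := by
    have h1 : Continuous (fun p : G B × G B => p.1.v) := continuous_v.comp continuous_fst
    have h2 : Continuous (fun p : G B × G B => p.2.v) := continuous_v.comp continuous_snd
    have h3 : Continuous (fun p : G B × G B => p.1.b) := continuous_b.comp continuous_fst
    have h4 : Continuous (fun p : G B × G B => p.2.b) := continuous_b.comp continuous_snd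
    have hb : Continuous (fun q : V B × V B => beta q.1 q.2) := continuous_of_discreteTopology
    have ha : Continuous (fun q : V B × V B => q.1 + q.2) := continuous_of_discreteTopology
    exact continuous_mk ((h3.add h4).add (hb.comp (h1.prodMk h2))) (ha.comp (h1.prodMk h2))
  continuous_inv := by
    have hb : Continuous (fun q : V B => beta q q) := continuous_of_discreteTopology
    have hn : Continuous (fun q : V B => -q) := continuous_of_discreteTopology
    exact continuous_mk (continuous_b.neg.add (hb.comp continuous_v)) (hn.comp continuous_v)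

instance [T2Space B] : T2Space (G B) := homeo.isEmbedding.t2Space

instance [CompactSpace B] [T2Space B] : LocallyCompactSpace (G B) :=
  homeo.isClosedEmbedding.locallyCompactSpace

theorem continuous_ctr : Continuous (ctr : Multiplicative B → G B) :=
  continuous_mk continuous_toAdd continuous_const

/-- `KO(G)` contains the centre `B`. -/
theorem ctr_mem_KO [CompactSpace B] (b : Multiplicative B) : ctr b ∈ KO (G B) := by
  simp only [KO, Subgroup.mem_iInf]
  intro n _ ρ hρ
  rw [MonoidHom.mem_ker]
  -- the linear operators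
  let L : G B →* Module.End ℂ (Fin n → ℂ) :=
    ((Matrix.toLinAlgEquiv' (R := ℂ) (n := Fin n)).toMonoidHom.comp
      (Units.coeHom (Matrix (Fin n) (Fin n) ℂ))).comp ρ
  have hLinj : ∀ g, L g = 1 → ρ g = 1 := by
    intro g hg
    apply Units.ext
    have : Matrix.toLinAlgEquiv' (R := ℂ) (n := Fin n) ((ρ g : GL (Fin n) ℂ) : Matrix (Fin n) (Fin n) ℂ) = 1 := hg
    rw [← map_one (Matrix.toLinAlgEquiv' (R := ℂ) (n := Fin n))] at this
    exact (Matrix.toLinAlgEquiv' (R := ℂ) (n := Fin n)).injective this
  have hinj : ∀ g, Function.Injective (L g) := by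
    intro g v w hvw
    have h1 : (L g⁻¹) (L g v) = (L g⁻¹) (L g w) := by rw [hvw]
    rwa [← Module.End.mul_apply, ← Module.End.mul_apply, ← map_mul, inv_mul_cancel, map_one,
      Module.End.one_apply, Module.End.one_apply] at h1
  have hcont : ∀ v : Fin n → ℂ, Continuous (fun g => L g v) := by
    intro v
    have h1 : Continuous (fun g => ((ρ g : GL (Fin n) ℂ) : Matrix (Fin n) (Fin n) ℂ)) :=
      Units.continuous_val.comp hρ
    have h2 : (fun g => L g v) =
        fun g => ((ρ g : GL (Fin n) ℂ) : Matrix (Fin n) (Fin n) ℂ).mulVec v := rfl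
    rw [h2]
    exact h1.matrix_mulVec continuous_const
  apply hLinj
  apply eq_one_of_bounded
  · intro l hl
    by_contra hl1
    obtain ⟨e, he, he0⟩ := hl.exists_hasEigenvector
    refine no_pairs (fun i => L (X b.toAdd i)) (fun i => L (Y i)) l hl1 ?_ ?_ ?_ ?_ _
      ((L (ctr b)).eigenspace l) Set.univ rfl ?_ Set.infinite_univ ?_ ?_ ?_
    · intro i j _
      rw [← map_mul, ← map_mul, X_comm]
    · intro i j hij
      rw [← map_mul, ← map_mul, XY_comm _ _ _ hij]
    · intro i; exact hinj _
    · intro i; exact hinj _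
    · rw [Submodule.ne_bot_iff]
      exact ⟨e, he, he0⟩
    · intro i _ v hv
      rw [Module.End.mem_eigenspace_iff] at hv ⊢
      rw [← Module.End.mul_apply, ← map_mul, ctr_comm, map_mul, Module.End.mul_apply, hv, map_smul]
    · intro i _ v hv
      rw [Module.End.mem_eigenspace_iff] at hv ⊢
      rw [← Module.End.mul_apply, ← map_mul, ctr_comm, map_mul, Module.End.mul_apply, hv, map_smul]
    · intro i _ v hv
      rw [Module.End.mem_eigenspace_iff] at hv
      have h1 : (L (X b.toAdd i)) ((L (Y i)) v) =
          (L (Y i)) ((L (X b.toAdd i)) ((L (ctr b)) v)) := by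
        simp only [← Module.End.mul_apply, ← map_mul]
        congr 2
        rw [XY_rel, ofAdd_toAdd, ctr_comm, mul_assoc]
      rw [h1, hv, map_smul, map_smul]
  · intro v φ
    have hc : Continuous (fun c : Multiplicative B => φ (L (ctr c) v)) := by
      have h1 : Continuous φ := φ.continuous_of_finiteDimensional
      exact h1.comp ((hcont v).comp continuous_ctr)
    obtain ⟨C, hC⟩ := (isCompact_range hc).isBounded.exists_norm_le
    refine ⟨C, fun k => hC _ ⟨b ^ k, ?_⟩⟩
    simp only [map_pow]

/-- characters of `ℚ/ℤ` -/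
noncomputable def qchar : AddCircle (1 : ℚ) →+ Additive ℂˣ :=
  QuotientAddGroup.lift (AddSubgroup.zmultiples (1 : ℚ))
    { toFun := fun q => Additive.ofMul (Units.mk0 (Complex.exp (2 * Real.pi * Complex.I * (q : ℂ)))
        (Complex.exp_ne_zero _))
      map_zero' := by
        apply congrArg Additive.ofMul
        apply Units.ext
        simp
      map_add' := by
        intro p q
        apply congrArg Additive.ofMul
        apply Units.ext
        change Complex.exp (2 * Real.pi * Complex.I * ((p + q : ℚ) : ℂ)) =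
          Complex.exp (2 * Real.pi * Complex.I * (p : ℂ)) *
            Complex.exp (2 * Real.pi * Complex.I * (q : ℂ))
        rw [← Complex.exp_add]
        congr 1
        push_cast
        ring }
    (by
      rintro _ ⟨n, rfl⟩
      rw [AddMonoidHom.mem_ker]
      apply congrArg Additive.ofMul
      apply Units.ext
      simp only [Units.val_mk0, Units.val_one]
      rw [Complex.exp_eq_one_iff]
      refine ⟨n, ?_⟩
      simp
      ring)

theorem qchar_ne (x : AddCircle (1 : ℚ)) (hx : x ≠ 0) : qchar x ≠ 0 := by
  obtain ⟨q, rfl⟩ := QuotientAddGroup.mk_surjective x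
  intro h
  apply hx
  have h1 : Complex.exp (2 * Real.pi * Complex.I * (q : ℂ)) = 1 :=
    congrArg (fun z : Additive ℂˣ => ((z.toMul : ℂˣ) : ℂ)) h
  rw [Complex.exp_eq_one_iff] at h1
  obtain ⟨n, hn⟩ := h1
  have h2 : (q : ℂ) = n := by
    have h3 : (2 * (Real.pi : ℂ) * Complex.I) ≠ 0 := by
      simp [Real.pi_ne_zero, Complex.I_ne_zero]
    apply mul_left_cancel₀ h3
    rw [hn]; ring
  have h4 : q = (n : ℚ) := by exact_mod_cast h2
  rw [h4]
  change ((n : ℚ) : AddCircle (1 : ℚ)) = 0
  rw [AddCircle.coe_eq_zero_iff]
  exact ⟨n, by simp⟩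

theorem v_eq_zero_of_mem_KO (x : G B) (hx : x ∈ KO (G B)) : x.v = 0 := by
  by_contra hne
  obtain ⟨c, hc⟩ := CharacterModule.exists_character_apply_ne_zero_of_ne_zero hne
  let χ₀ : Multiplicative (V B) →* ℂˣ := AddMonoidHom.toMultiplicativeLeft (qchar.comp c)
  let ρ₀ : Multiplicative (V B) →* GL (Fin 1) ℂ := (Matrix.GeneralLinearGroup.scalar (Fin 1)).comp χ₀
  have hcont : Continuous (ρ₀.comp proj : G B →* GL (Fin 1) ℂ) := by
    have h1 : Continuous (fun v : V B => ρ₀ (Multiplicative.ofAdd v)) :=
      continuous_of_discreteTopology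
    exact h1.comp continuous_v
  simp only [KO, Subgroup.mem_iInf] at hx
  have h1 : ρ₀ (proj x) = 1 := hx 1 le_rfl (ρ₀.comp proj) hcont
  have h2 : χ₀ (proj x) = 1 := by
    have h3 := congrArg (fun M : GL (Fin 1) ℂ => (M : Matrix (Fin 1) (Fin 1) ℂ) 0 0) h1
    apply Units.ext
    simpa [ρ₀, Matrix.GeneralLinearGroup.coe_scalar] using h3
  exact qchar_ne _ hc h2

end G

end group

/-- Every compact abelian group is topologically isomorphic to `KO(G)` for some locally compact
(Hausdorff) group `G`. -/
theorem result (A : Type u) [CommGroup A] [TopologicalSpace A] [IsTopologicalGroup A]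
    [CompactSpace A] [T2Space A] :
    ∃ (G : Type u) (_ : Group G) (_ : TopologicalSpace G),
      IsTopologicalGroup G ∧ LocallyCompactSpace G ∧ T2Space G ∧ Nonempty (KO G ≃ₜ* A) := by
  have : T2Space (Additive A) := inferInstanceAs (T2Space A)
  have : CompactSpace (Additive A) := inferInstanceAs (CompactSpace A)
  refine ⟨G (Additive A), inferInstance, inferInstance, inferInstance, inferInstance, inferInstance,
    ⟨?_⟩⟩
  exact
    { toFun := fun x => (x.1.b).toMul
      invFun := fun a => ⟨G.ctr (Multiplicative.ofAdd (Additive.ofMul a)), G.ctr_mem_KO _⟩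
      left_inv := by
        intro x
        apply Subtype.ext
        apply G.ext
        · rfl
        · exact (G.v_eq_zero_of_mem_KO x.1 x.2).symm
      right_inv := fun a => rfl
      map_mul' := by
        intro x y
        have hx := G.v_eq_zero_of_mem_KO x.1 x.2
        change ((x.1 * y.1).b).toMul = (x.1.b).toMul * (y.1.b).toMul
        rw [G.mul_b, hx, beta_zero_left, add_zero]
        rfl
      continuous_toFun := continuous_toMul.comp (G.continuous_b.comp continuous_subtype_val)
      continuous_invFun := by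
        apply Continuous.subtype_mk
        exact G.continuous_ctr.comp (continuous_ofAdd.comp continuous_ofMul) }

end Pool.Agent.Results.MP_3f481b_al.EveryCompactAbelian
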